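import Pool.Agent.Helper6_Eng.Stmts

/-! Squad ENG, module LBC: base change for `PSL`. -/

set_option autoImplicit false

namespace Pool.Agent.Eng.H54

open Matrix

lemma mem_center_of_inj {H G : Type} [Group H] [Group G] (f : H →* G)
    (hf : Function.Injective f) (h : H) (hc : f h ∈ Subgroup.center G) :
    h ∈ Subgroup.center H := by
  rw [Subgroup.mem_center_iff] at hc ⊢
  intro g
  apply hf
  rw [map_mul, map_mul]
  exact hc (f g)

theorem lbc (h1 : PdCenStmt) : LbcStmt := by
  intro k F _ _ _ n N hP
  refine h1 (SpecialLinearGroup (Fin n) k) (SpecialLinearGroup (Fin n) F)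
    (SpecialLinearGroup.map (algebraMap k F)) (Subgroup.center _) (Subgroup.center _) N ?_ hP
  intro A hA
  refine mem_center_of_inj _ ?_ A hA
  intro B C hBC
  apply Subtype.ext
  ext i j
  have := congrArg (fun M : SpecialLinearGroup (Fin n) F => M i j) hBC
  exact (algebraMap k F).injective this

end Pool.Agent.Eng.H54
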