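import Pool.Agent.Helper6_Eng.Stmts

/-! Squad ENG, module SMON: monotonicity in the rank for `PSp`. -/

set_option autoImplicit false

namespace Pool.Agent.Eng.H54

open Matrix

variable {F : Type} [Field F]

/-- the index equivalence -/
def ix (m r : ℕ) : (Fin m ⊕ Fin m) ⊕ (Fin r ⊕ Fin r) ≃ Fin (m + r) ⊕ Fin (m + r) :=
  (Equiv.sumSumSumComm (Fin m) (Fin m) (Fin r) (Fin r)).trans
    (Equiv.sumCongr finSumFinEquiv finSumFinEquiv)

/-- the block embedding -/
def blk (m r : ℕ) (A : Matrix (Fin m ⊕ Fin m) (Fin m ⊕ Fin m) F) :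
    Matrix (Fin (m + r) ⊕ Fin (m + r)) (Fin (m + r) ⊕ Fin (m + r)) F :=
  (fromBlocks A 0 0 (1 : Matrix (Fin r ⊕ Fin r) (Fin r ⊕ Fin r) F)).submatrix
    (ix m r).symm (ix m r).symm

lemma blk_mul (m r : ℕ) (A B : Matrix (Fin m ⊕ Fin m) (Fin m ⊕ Fin m) F) :
    blk m r (A * B) = blk m r A * blk m r B := by
  unfold blk
  rw [submatrix_mul_equiv, fromBlocks_multiply]
  simp

lemma blk_one (m r : ℕ) : blk m r (1 : Matrix (Fin m ⊕ Fin m) (Fin m ⊕ Fin m) F) = 1 := by
  unfold blk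
  rw [fromBlocks_one, submatrix_one_equiv]

lemma blk_transpose (m r : ℕ) (A : Matrix (Fin m ⊕ Fin m) (Fin m ⊕ Fin m) F) :
    (blk m r A)ᵀ = blk m r Aᵀ := by
  unfold blk
  rw [transpose_submatrix, fromBlocks_transpose]
  simp

lemma J_eq (m r : ℕ) : (fromBlocks (J (Fin m) F) 0 0 (J (Fin r) F)).submatrix
    (ix m r).symm (ix m r).symm = J (Fin (m + r)) F := by
  have h : fromBlocks (J (Fin m) F) 0 0 (J (Fin r) F) = (J (Fin (m + r)) F).submatrix
    (ix m r) (ix m r) := by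
    ext i j
    rcases i with (i | i) | (i | i) <;> rcases j with (j | j) | (j | j) <;>
      simp [J, ix, Matrix.one_apply, Matrix.neg_apply, Fin.ext_iff] <;> omega
  rw [h, submatrix_submatrix]
  simp

lemma blk_mem (m r : ℕ) {A : Matrix (Fin m ⊕ Fin m) (Fin m ⊕ Fin m) F}
    (hA : A ∈ symplecticGroup (Fin m) F) : blk m r A ∈ symplecticGroup (Fin (m + r)) F := by
  rw [SymplecticGroup.mem_iff] at hA ⊢
  rw [blk_transpose, ← J_eq]
  unfold blk
  rw [submatrix_mul_equiv, submatrix_mul_equiv, fromBlocks_multiply, fromBlocks_multiply]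
  simp [hA]

/-- the homomorphism -/
def blkHom (m r : ℕ) : Sp m F →* Sp (m + r) F where
  toFun A := ⟨blk m r A, blk_mem m r A.2⟩
  map_one' := Subtype.ext (blk_one m r)
  map_mul' _ _ := Subtype.ext (blk_mul m r _ _)

lemma blk_inj_one (m r : ℕ) {A : Matrix (Fin m ⊕ Fin m) (Fin m ⊕ Fin m) F}
    (h : blk m r A = 1) : A = 1 := by
  ext i j
  have := congrFun (congrFun h (ix m r (Sum.inl i))) (ix m r (Sum.inl j))
  simpa [blk, Matrix.one_apply] using this

lemma blk_inj_neg (m r : ℕ) {A : Matrix (Fin m ⊕ Fin m) (Fin m ⊕ Fin m) F}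
    (h : blk m r A = -1) : A = -1 := by
  ext i j
  have := congrFun (congrFun h (ix m r (Sum.inl i))) (ix m r (Sum.inl j))
  simpa [blk, Matrix.one_apply] using this

theorem smon (h1 : PdCenStmt) (h2 : SpCenterMatStmt) : SpMonoStmt := by
  intro F _ m n N hmn hP
  obtain ⟨r, rfl⟩ := Nat.exists_eq_add_of_le hmn
  refine h1 (Sp m F) (Sp (m + r) F) (blkHom m r) (Subgroup.center _) (Subgroup.center _) N ?_ hP
  intro A hA
  rw [h2] at hA ⊢
  rcases hA with hA | hA
  · exact Or.inl (blk_inj_one m r hA)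
  · exact Or.inr (blk_inj_neg m r hA)

end Pool.Agent.Eng.H54
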