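import Pool.Agent.Helper6_Eng.Stmts

/-! Squad ENG, module TNT: number theory of Fermat numbers. -/

set_option autoImplicit false

namespace Pool.Agent.Eng.H54

open Matrix NumberTheorySymbols

lemma fermat_mod_four {t : ℕ} (ht : 2 ≤ t) : (2 ^ (2 ^ t) + 1) % 4 = 1 := by
  have h : 2 ≤ 2 ^ t := by
    calc 2 = 2 ^ 1 := rfl
      _ ≤ 2 ^ t := Nat.pow_le_pow_right (by norm_num) (by omega)
  obtain ⟨s, hs⟩ := Nat.exists_eq_add_of_le h
  rw [hs, pow_add]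
  omega

lemma fermat_mod_three {t : ℕ} (ht : 2 ≤ t) : (2 ^ (2 ^ t) + 1) % 3 = 2 := by
  obtain ⟨s, hs⟩ := Nat.exists_eq_add_of_le (show 1 ≤ t by omega)
  have h : 2 ^ (2 ^ t) % 3 = 1 := by
    rw [hs, pow_add, pow_one, pow_mul, Nat.pow_mod]
    norm_num
  omega

theorem tnt : TntStmt := by
  intro t ht
  have h4 := fermat_mod_four ht
  have h3 := fermat_mod_three ht
  have hJ : J((3 : ℕ) | 2 ^ (2 ^ t) + 1) = -1 := by
    rw [jacobiSym.quadratic_reciprocity_one_mod_four' (by decide) h4, jacobiSym.mod_left]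
    have e : ((2 ^ (2 ^ t) + 1 : ℕ) : ℤ) % ((3 : ℕ) : ℤ) = 2 := by
      exact_mod_cast h3
    rw [e]
    norm_num
  obtain ⟨P, hP, hPd, hPJ⟩ := jacobiSym.eq_neg_one_at_prime_divisor_of_eq_neg_one hJ
  refine ⟨P, hP, hPd, ?_⟩
  intro d _ h
  have : Fact P.Prime := ⟨hP⟩
  obtain ⟨k, hk⟩ := Nat.fermat_primeFactors_one_lt t P (by omega) hP hPd
  have hk0 : k ≠ 0 := by
    rintro rfl
    have := hP.two_le
    omega
  have hP2 : 2 < P := by
    have h1 : 2 ^ 2 ≤ 2 ^ (t + 2) := Nat.pow_le_pow_right (by norm_num) (by omega)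
    have h2 : 1 * 2 ^ (t + 2) ≤ k * 2 ^ (t + 2) := Nat.mul_le_mul_right _ (by omega)
    omega
  have : Fact (2 < P) := ⟨hP2⟩
  have hhalf : P / 2 = k * 2 ^ (t + 1) := by
    have : k * 2 ^ (t + 2) = 2 * (k * 2 ^ (t + 1)) := by ring
    omega
  have hL : (3 : ZMod P) ^ (P / 2) = -1 := by
    have h1 := legendreSym.eq_pow P ((3 : ℕ) : ℤ)
    rw [← jacobiSym.legendreSym.to_jacobiSym P] at hPJ
    rw [hPJ] at h1
    push_cast at h1
    exact h1.symm
  have h5 : ((3 : ZMod P) ^ k) ^ 2 ^ (t + 1) = -1 := by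
    rw [← pow_mul, ← hhalf, hL]
  have h6 : orderOf ((3 : ZMod P) ^ k) = 2 ^ (t + 1 + 1) := by
    apply orderOf_eq_prime_pow
    · rw [h5]
      exact ZMod.neg_one_ne_one
    · rw [pow_succ, pow_mul, h5, neg_one_sq]
  have h7 : ((3 : ZMod P) ^ k) ^ d = 1 := by
    rw [← pow_mul, mul_comm, pow_mul, h, one_pow]
  have h8 := orderOf_dvd_of_pow_eq_one h7
  rw [h6] at h8
  exact h8

end Pool.Agent.Eng.H54
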